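import Pool.Agent.Helper4.VZ.Fb

/-! ONE COORDINATE: the digits of one coordinate of a point over the other coordinates and a partition which knows a form
that is small at the point: `h (z_b | V, P_1) ≤ E max (b - w) 0` for every lower bound `w` of the exponent of `1 + J_zz`
(the fibre count of `Helper4.VZ.CNT_fb` for arbitrary partitions and forms). -/

set_option autoImplicit false

namespace Pool.Agent.Helper80.NSL

open Finset Filter Topology Matrix Pool.Agent.Helper69.RK Pool.Agent.Helper31.EC Pool.Agent.Helper31.EC.Sp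
open Pool.Agent.Helper40.EL Pool.Agent.Helper89.LX Pool.Agent.Helper3.LF Pool.Agent.Helper84.MT
open Pool.Agent.Helper95.LF
open Pool.Agent.Helper14.MC
open Pool.Agent.Helper42.NS (osp)
open Pool.Agent.Helper4.VZ (zex zc pc CNT_fb sgl sgl_Jq zc_card rt_UB_card)

noncomputable section

variable {S : Sp} {M D : ℕ}

/-- the exponent of `1 + J_zz` is bounded for every capped form -/
theorem zex_bd (y : S.VV M) (z : Fin M) (A : ∀ k, (S.F k).Ω → Matrix (Mon M D) (Mon M D) ℝ) (C : ℝ) (hC : 0 ≤ C)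
    (hA : ∀ᶠ k in UF, ∀ ω, (S.F k).μ ω ≠ 0 → Cpd (2 ^ (C * (S.F k).n)) (A k ω)) :
    ∃ Cz : ℝ, 0 ≤ Cz ∧ ∀ᶠ k in UF, ∀ ω, (S.F k).μ ω ≠ 0 → 0 ≤ zex y A z k ω ∧ zex y A z k ω ≤ Cz := by
  have hnn := nn_one M D
  have hCm := Cm_one M D
  obtain ⟨K1, hK1, hb⟩ := y.bd
  have hs : S.Sub (fun k => 1 + (M : ℝ) * nn M D * Cm M D ^ 2 *
      (nn M D * Fintype.card (Mon M D) * (K1 k + 1) ^ (2 * D))) :=
    (S.Sub_const zero_le_one).add ((S.Sub_const (by positivity)).mul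
      ((S.Sub_const (by positivity)).mul (Sub_pow' (hK1.add (S.Sub_const zero_le_one)) _)))
  refine ⟨2 + C + 1, by linarith, ?_⟩
  filter_upwards [hA, hs.eventually_le one_pos, hb, hK1.1] with k a c b0 b1 ω hω
  have hn := (S.F k).pos
  have hAω := a ω hω
  have hδ := S.dl_pos 1 k
  have hJ : 0 ≤ Jq (S.dl 1 k) (A k ω) (y.v k ω) z z := by
    have := Jq_nonneg (S.dl 1 k) hAω.psd.2 (y.v k ω) (sgl z)
    rwa [sgl_Jq] at this
  have h1 := Jq_gam (S.dl 1 k) (A k ω) hAω.pdM (y.v k ω) (sgl z)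
  have h2 := gam_le (A k ω) hAω.pdM (S.dl 1 k) hδ (y.v k ω)
  have h4 := gam_nonneg (S.dl 1 k) hAω.pdM.nonneg (y.v k ω)
  have h6 : (S.dl 1 k ^ 2)⁻¹ = 2 ^ (2 * (S.F k).n) := Pool.Agent.Helper59.EV.dl_sq_inv S k
  have hcp0 : (1 : ℝ) ≤ 2 ^ (C * (S.F k).n) := Real.one_le_rpow (by norm_num) (mul_nonneg hC hn.le)
  have h3 := phi_le (A k ω) (2 ^ (C * (S.F k).n)) hAω.2.2 (by linarith) (S.dl 1 k) (K1 k + 1)
    (S.dl_pos 1 k).le (by linarith) (y.v k ω)
    (fun i => add_le_add (b0 _ hω i) (dl_one_le S k))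
  set W : ℝ := nn M D * Fintype.card (Mon M D) * (K1 k + 1) ^ (2 * D) with hW
  have hW0 : 0 ≤ W := by positivity
  have h7 : gam (S.dl 1 k) (A k ω) (y.v k ω) ≤
      2 ^ (2 * (S.F k).n) * ((M : ℝ) * nn M D * Cm M D ^ 2 * (W * 2 ^ (C * (S.F k).n))) := by
    rw [← h6, inv_mul_eq_div, le_div_iff₀ (by positivity), mul_comm]
    refine h2.trans ?_
    exact mul_le_mul_of_nonneg_left h3 (by positivity)
  have hdot : sgl z ⬝ᵥ sgl z = 1 := by
    unfold sgl
    rw [single_one_dotProduct, Pi.single_eq_same]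
  rw [hdot, mul_one, sgl_Jq] at h1
  have h8 : 1 + Jq (S.dl 1 k) (A k ω) (y.v k ω) z z ≤
      2 ^ (2 * (S.F k).n) * 2 ^ (C * (S.F k).n) * (1 + (M : ℝ) * nn M D * Cm M D ^ 2 * W) := by
    have h10 : (1 : ℝ) ≤ 2 ^ (2 * (S.F k).n) := Real.one_le_rpow (by norm_num) (by linarith)
    have h11 : (1 : ℝ) ≤ 2 ^ (2 * (S.F k).n) * 2 ^ (C * (S.F k).n) := one_le_mul_of_one_le_of_one_le h10 hcp0
    rw [mul_add, mul_one]
    have h12 := h1.trans h7
    have h13 : 2 ^ (2 * (S.F k).n) * ((M : ℝ) * nn M D * Cm M D ^ 2 * (W * 2 ^ (C * (S.F k).n))) =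
      2 ^ (2 * (S.F k).n) * 2 ^ (C * (S.F k).n) * ((M : ℝ) * nn M D * Cm M D ^ 2 * W) := by ring
    linarith
  have h9 : 1 + (M : ℝ) * nn M D * Cm M D ^ 2 * W ≤ 2 ^ (1 * (S.F k).n) := by linarith
  have h10 : 1 + Jq (S.dl 1 k) (A k ω) (y.v k ω) z z ≤ 2 ^ ((2 + C + 1) * (S.F k).n) := by
    refine h8.trans ?_
    rw [add_mul, add_mul, Real.rpow_add (by norm_num), Real.rpow_add (by norm_num)]
    exact mul_le_mul_of_nonneg_left h9 (by positivity)
  constructor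
  · exact div_nonneg (Real.logb_nonneg (by norm_num) (by linarith)) (by positivity)
  · unfold zex
    rw [div_le_iff₀ (by positivity)]
    rw [← Real.logb_le_iff_le_rpow (by norm_num) (by linarith)] at h10
    nlinarith

/-- ONE COORDINATE, partitions -/
theorem h1d (hD : 1 ≤ D) (y : S.VV M) (z : Fin M) (V : ∀ k, Setoid (S.F k).Ω)
    (A : ∀ k, (S.F k).Ω → Matrix (Mon M D) (Mon M D) ℝ) (C : ℝ) (hC : 0 ≤ C)
    (hA : ∀ᶠ k in UF, ∀ ω, (S.F k).μ ω ≠ 0 → Cpd (2 ^ (C * (S.F k).n)) (A k ω))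
    (hV : ∀ᶠ k in UF, ∀ ω ω', (S.F k).μ ω ≠ 0 → (S.F k).μ ω' ≠ 0 → V k ω ω' → (S.F k).Z ω ω' → A k ω = A k ω')
    (hφ : ∀ e : ℝ, 0 < e → Sp.Typ (S := S) (fun k ω => phi (S.dl 1 k) (A k ω) (y.v k ω) ≤ 2 ^ (e * (S.F k).n)))
    (w : ∀ k, (S.F k).Ω → ℝ) (hw : ∀ e : ℝ, 0 < e → Sp.Typ (S := S) (fun k ω => w k ω - e ≤ zex y A z k ω))
    (b : ℝ) (hb : 0 ≤ b) (hb1 : b ≤ 1) (x Y : ∀ k, FL (S.F k)) (hx : ∀ k, x k ≤ fc (Setoid.ker (zc y z b k)))
    (hY : ∀ k, fc (V k) ⊔ fc (Setoid.ker (pc y z k)) ≤ Y k) (e : ℝ) (he : 0 < e) :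
    ∀ᶠ k in UF, h (x k) (Y k) ≤ (∑ ω, (S.F k).μ ω * max (b - w k ω) 0 + e) * (S.F k).n := by
  classical
  obtain ⟨K, hK, hT⟩ := typ_sub_le (S := S) (fun k ω => phi (S.dl 1 k) (A k ω) (y.v k ω)) hφ
  obtain ⟨Cz, hCz, hz⟩ := zex_bd y z A C hC hA
  set T : Sp := S.chg V 1 one_pos with hTdef
  have hdl : ∀ (r : ℝ) k, T.dl r k = S.dl r k := fun r k => by rw [hTdef, chg_dl, one_mul]
  have hn : ∀ k, (T.F k).n = (S.F k).n := fun k => one_mul _
  set y' : T.VV M := y.chg V 1 one_pos with hy'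
  have hzz : ∀ k ω, zex y' A z k ω = zex y A z k ω := by
    intro k ω
    unfold zex
    rw [hdl, hn]
    rfl
  have hcnt := CNT_fb (S := T) hD y' z A C (by
      filter_upwards [hA] with k hk ω hω
      rw [hn]
      exact hk ω hω) (by
      filter_upwards [hV] with k hk ω ω' h1 h2 h3
      exact hk ω ω' h1 h2 h3.1 h3.2)
    (fun k ω => phi (S.dl 1 k) (A k ω) (y.v k ω) ≤ K k) hT K (chg_sub V 1 one_pos hK) (by
      refine Eventually.of_forall fun k ω _ h2 => ?_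
      rw [hdl]
      exact h2) Cz (by
      filter_upwards [hz] with k hk ω hω
      rw [hzz]
      exact hk ω hω) b hb hb1
  have hfU : UB (T.rt (fun k => Setoid.ker (zc y' z b k)) (fun k => Setoid.ker (pc y' z k))) :=
    rt_UB_card (S := T) _ _ (2 * M) (by positivity) (zc_card y' z b hb1)
  have hgU : UB (fun k => ∑ ω, (T.F k).μ ω * max (b - zex y' A z k ω) 0) := by
    apply UB_of_nonneg_le (C := b)
    · exact Eventually.of_forall fun k => Finset.sum_nonneg fun ω _ =>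
        mul_nonneg ((T.F k).nn ω) (le_max_right _ _)
    · filter_upwards [hz] with k hk
      exact sum_mul_le (F := T.F k) _ _ fun ω hω => max_le (by rw [hzz]; linarith [(hk ω hω).1]) hb
  have h1 := (ul_tendsto hfU).eventually (gt_mem_nhds (show ul (T.rt (fun k => Setoid.ker (zc y' z b k))
    (fun k => Setoid.ker (pc y' z k))) < ul (T.rt (fun k => Setoid.ker (zc y' z b k))
    (fun k => Setoid.ker (pc y' z k))) + e / 4 by linarith))
  have h2 := (ul_tendsto hgU).eventually (lt_mem_nhds (show ul (fun k => ∑ ω, (T.F k).μ ω *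
    max (b - zex y' A z k ω) 0) - e / 4 < ul (fun k => ∑ ω, (T.F k).μ ω * max (b - zex y' A z k ω) 0) by linarith))
  have h3 : Tendsto (fun k => b * (S.F k).pb (fun ω => ¬ (w k ω - e / 4 ≤ zex y A z k ω))) UF (𝓝 (b * 0)) :=
    Tendsto.const_mul b (hw (e / 4) (by linarith))
  rw [mul_zero] at h3
  filter_upwards [h1, h2, h3.eventually (gt_mem_nhds (show (0 : ℝ) < e / 4 by linarith)), hz] with k a1 a2 a3 a4
  have hp := (S.F k).pos
  have h5 : h (x k) (Y k) ≤ h (fc (Setoid.ker (zc y z b k))) (fc (V k) ⊔ fc (Setoid.ker (pc y z k))) :=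
    (h_mono (hx k)).trans (h_anti (hY k))
  have h6 : h (fc (Setoid.ker (zc y z b k))) (fc (V k) ⊔ fc (Setoid.ker (pc y z k))) =
      T.rt (fun k => Setoid.ker (zc y' z b k)) (fun k => Setoid.ker (pc y' z k)) k * (S.F k).n := by
    have e1 : T.rt (fun k => Setoid.ker (zc y' z b k)) (fun k => Setoid.ker (pc y' z k)) k =
        S.rt (fun k => Setoid.ker (zc y' z b k)) (fun k => Setoid.ker (pc y' z k) ⊓ V k) k / 1 :=
      chg_rt V 1 one_pos _ _ k
    rw [e1, div_one]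
    have e2 : zc y' z b k = zc y z b k := by
      funext ω
      unfold zc
      rw [hdl]
      rfl
    have e3 : pc y' z k = pc y z k := by
      funext ω i
      unfold pc
      rw [hdl]
      rfl
    have e4 : S.rt (fun k => Setoid.ker (zc y' z b k)) (fun k => Setoid.ker (pc y' z k) ⊓ V k) k =
        (S.F k).e (Setoid.ker (zc y' z b k)) (Setoid.ker (pc y' z k) ⊓ V k ⊓ (S.F k).Z) / (S.F k).n := rfl
    rw [e4, e2, e3, div_mul_cancel₀ _ hp.ne', ← fc_inf, h_fc, inf_comm (V k)]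
  have h7 : ∑ ω, (T.F k).μ ω * max (b - zex y' A z k ω) 0 ≤
      ∑ ω, (S.F k).μ ω * max (b - w k ω) 0 + e / 4 + b * (S.F k).pb (fun ω => ¬ (w k ω - e / 4 ≤ zex y A z k ω)) := by
    have g1 : ∑ ω, (T.F k).μ ω * max (b - zex y' A z k ω) 0 = ∑ ω, (S.F k).μ ω * max (b - zex y A z k ω) 0 := by
      refine Finset.sum_congr rfl fun ω _ => ?_
      rw [hzz]
      rfl
    rw [g1]
    have g2 : ∀ ω, (S.F k).μ ω * max (b - zex y A z k ω) 0 ≤ (S.F k).μ ω * (max (b - w k ω) 0 + e / 4) +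
        b * res (S.F k).μ (fun ω => ¬ (w k ω - e / 4 ≤ zex y A z k ω)) ω := by
      intro ω
      by_cases h0 : (S.F k).μ ω = 0
      · by_cases h5 : w k ω - e / 4 ≤ zex y A z k ω
        · rw [res_neg _ (fun ω => ¬ (w k ω - e / 4 ≤ zex y A z k ω)) ω (not_not.2 h5), h0]
          simp
        · rw [res_pos _ (fun ω => ¬ (w k ω - e / 4 ≤ zex y A z k ω)) ω h5, h0]
          simp
      · have h3 := (a4 ω h0).1
        have h4 := (S.F k).nn ω
        have h6 : 0 ≤ max (b - w k ω) 0 := le_max_right _ _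
        by_cases h5 : w k ω - e / 4 ≤ zex y A z k ω
        · rw [res_neg _ (fun ω => ¬ (w k ω - e / 4 ≤ zex y A z k ω)) ω (not_not.2 h5), mul_zero, add_zero]
          refine mul_le_mul_of_nonneg_left (max_le ?_ (by positivity)) h4
          have := le_max_left (b - w k ω) 0
          linarith
        · rw [res_pos _ (fun ω => ¬ (w k ω - e / 4 ≤ zex y A z k ω)) ω h5]
          have h7 : max (b - zex y A z k ω) 0 ≤ b := max_le (by linarith) hb
          have h8 : 0 ≤ (S.F k).μ ω * (max (b - w k ω) 0 + e / 4) := by positivity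
          nlinarith
    refine (Finset.sum_le_sum fun ω _ => g2 ω).trans ?_
    have h3 : ∑ ω, (S.F k).μ ω = 1 := (S.F k).ms
    have g3 : ∀ ω, (S.F k).μ ω * (max (b - w k ω) 0 + e / 4) = (S.F k).μ ω * max (b - w k ω) 0 + (S.F k).μ ω * (e / 4) :=
      fun ω => by ring
    rw [Finset.sum_add_distrib, Finset.sum_congr rfl fun ω _ => g3 ω, Finset.sum_add_distrib, ← Finset.sum_mul,
      ← Finset.mul_sum, h3, one_mul]
    exact le_of_eq rfl
  rw [h6] at h5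
  refine h5.trans (mul_le_mul_of_nonneg_right ?_ hp.le)
  linarith

/-! ### over a label -/

/-- the exponent of `1 + J_zz` at the point, as a function on the space of a label, for any form -/
def zl (l : Lab S) (y : S.VV M) (A : ∀ k, (l k).T.Ω → Matrix (Mon M D) (Mon M D) ℝ) (z : Fin M) (k : ℕ)
    (ω : (l k).T.Ω) : ℝ :=
  Real.logb 2 (1 + Jq (S.dl 1 k) (A k ω) (y.v k ((l k).p.π ω)) z z) / (2 * (S.F k).n)

theorem zl_zx (Q : S.VV M) (x : ∀ k, FD (S.F k) (Mon M D)) (z : Fin M) (k : ℕ) (ω : (x k).l.T.Ω) :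
    zl (lb x) Q (fun k ω => (x k).g ω) z k ω = Pool.Agent.Helper4.VZ.zx Q x z k ω := rfl

theorem zl_zex (l : Lab S) (y : S.VV M) (A : ∀ k, (l k).T.Ω → Matrix (Mon M D) (Mon M D) ℝ) (z : Fin M) (k : ℕ)
    (ω : (l k).T.Ω) : zex (S := l.sp) (l.pj.vv y) A z k ω = zl l y A z k ω := by
  unfold zex zl
  rw [sp_dl, sp_n]
  rfl

/-- ONE COORDINATE, over a label: `l` knows a form which is small at the point -/
theorem h1d_lab (hD : 1 ≤ D) (l : Lab S) (y : S.VV M) (z : Fin M)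
    (A : ∀ k, (l k).T.Ω → Matrix (Mon M D) (Mon M D) ℝ) (C : ℝ) (hC : 0 ≤ C)
    (hA : ∀ᶠ k in UF, ∀ ω, (l k).T.μ ω ≠ 0 → Cpd (2 ^ (C * (S.F k).n)) (A k ω))
    (hV : ∀ᶠ k in UF, ∀ ω ω', (l k).T.μ ω ≠ 0 → (l k).T.μ ω' ≠ 0 → (l k).V ω ω' → (l k).T.Z ω ω' → A k ω = A k ω')
    (hφ : ∀ e : ℝ, 0 < e → Sp.Typ (S := l.sp) (fun k (ω : (l k).T.Ω) =>
      phi (S.dl 1 k) (A k ω) (y.v k ((l k).p.π ω)) ≤ 2 ^ (e * (S.F k).n)))
    (w : ∀ k, (l k).T.Ω → ℝ) (hw : ∀ e : ℝ, 0 < e → Sp.Typ (S := l.sp) (fun k ω => w k ω - e ≤ zl l y A z k ω))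
    (b : ℝ) (hb : 0 ≤ b) (hb1 : b ≤ 1) (hU : UB (fun k => ∑ ω, (l k).T.μ ω * max (b - w k ω) 0))
    {M' : ℕ} (P : S.VV M') (hP : ∀ i, i ≠ z → ∃ j, ∀ k ω, P.v k ω j = y.v k ω i) (u : S.VV 1)
    (hu : ∀ k ω, u.v k ω 0 = y.v k ω z) :
    h (up1 l (u.dg b)) (up1 l (P.dg 1)) ≤ ul (fun k => ∑ ω, (l k).T.μ ω * max (b - w k ω) 0) := by
  have hdl : ∀ (r : ℝ) k, l.sp.dl r k = S.dl r k := fun r k => sp_dl l r k
  have hn : ∀ k, (l.sp.F k).n = (S.F k).n := fun k => sp_n l k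
  have hmain := fun e he => h1d (S := l.sp) hD (l.pj.vv y) z l.V A C hC (by
      filter_upwards [hA] with k hk ω hω
      rw [hn]
      exact hk ω hω) (by
      filter_upwards [hV] with k hk ω ω' h1 h2 h3 h4
      exact hk ω ω' h1 h2 h3 h4) (by
      intro e he
      have h1 := hφ e he
      have h2 : (fun k (ω : (l.sp.F k).Ω) => phi (l.sp.dl 1 k) (A k ω) ((l.pj.vv y).v k ω) ≤
          2 ^ (e * (l.sp.F k).n)) = fun k (ω : (l k).T.Ω) =>
          phi (S.dl 1 k) (A k ω) (y.v k ((l k).p.π ω)) ≤ 2 ^ (e * (S.F k).n) := by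
        funext k ω
        rw [hdl, hn]
        rfl
      rw [h2]
      exact h1) w (by
      intro e he
      have h1 := hw e he
      have h2 : (fun k (ω : (l.sp.F k).Ω) => w k ω - e ≤ zex (S := l.sp) (l.pj.vv y) A z k ω) =
          fun k (ω : (l k).T.Ω) => w k ω - e ≤ zl l y A z k ω := by
        funext k ω
        exact congrArg (fun t : ℝ => w k ω - e ≤ t) (zl_zex l y A z k ω)
      rw [h2]
      exact h1) b hb hb1 (fun k => fc (Setoid.ker ((l.pj.vv u).cellv b k)))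
    (fun k => fc (l.V k) ⊔ fc (Setoid.ker ((l.pj.vv P).cellv 1 k))) (by
      intro k
      apply fc_le
      intro ω ω' _ _ _ h4
      have h5 : zc (S := l.sp) (l.pj.vv y) z b k ω = zc (S := l.sp) (l.pj.vv y) z b k ω' := h4
      show (l.pj.vv u).cellv b k ω = (l.pj.vv u).cellv b k ω'
      funext j
      have hj : j = 0 := Subsingleton.elim _ _
      have h6 : ⌊y.v k ((l k).p.π ω) z / l.sp.dl b k⌋ = ⌊y.v k ((l k).p.π ω') z / l.sp.dl b k⌋ := h5
      rw [hj]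
      show ⌊u.v k ((l k).p.π ω) 0 / l.sp.dl b k⌋ = ⌊u.v k ((l k).p.π ω') 0 / l.sp.dl b k⌋
      rw [hu, hu]
      exact h6) (by
      intro k
      apply sup_le_sup_left
      apply fc_le
      intro ω ω' _ _ _ h4
      show pc (S := l.sp) (l.pj.vv y) z k ω = pc (S := l.sp) (l.pj.vv y) z k ω'
      have h5 : (l.pj.vv P).cellv 1 k ω = (l.pj.vv P).cellv 1 k ω' := h4
      funext i
      unfold pc
      by_cases hi : i = z
      · rw [if_pos hi, if_pos hi]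
      · obtain ⟨j, hj⟩ := hP i hi
        rw [if_neg hi, if_neg hi]
        have h6 : ⌊P.v k ((l k).p.π ω) j / l.sp.dl 1 k⌋ = ⌊P.v k ((l k).p.π ω') j / l.sp.dl 1 k⌋ := congrFun h5 j
        rw [hj, hj] at h6
        exact h6) e he
  apply le_of_forall_pos_le_add
  intro e he
  have h1 : h (up1 l (u.dg b)) (up1 l (P.dg 1)) =
      ul ((osp l).rt (fun k => Setoid.ker ((oQ l u).cellv b k)) (fun k => Setoid.ker ((oQ l P).cellv 1 k))) := by
    rw [← Pool.Agent.Helper42.NS.u1_h, ← oQ_dg, ← oQ_dg]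
    exact Sp.h_io ((oQ l u).bdd b) ((oQ l P).bdd 1)
  rw [h1]
  have h2 : ul (fun k => (∑ ω, (l k).T.μ ω * max (b - w k ω) 0) + e) =
      ul (fun k => ∑ ω, (l k).T.μ ω * max (b - w k ω) 0) + e := by
    rw [ul_add hU (UB_const e)]
    congr 1
    exact ul_eq tendsto_const_nhds
  rw [← h2]
  apply ul_mono (Sp.UB_rt ((oQ l u).bdd b).toInf _) (hU.add (UB_const e))
  filter_upwards [hmain e he] with k hk
  have hp := (S.F k).pos
  have hdlo : ∀ r, (osp l).dl r k = l.sp.dl r k := fun r => by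
    rw [Pool.Agent.Helper42.NS.osp_dl, sp_dl]
  have e1 : (osp l).rt (fun k => Setoid.ker ((oQ l u).cellv b k)) (fun k => Setoid.ker ((oQ l P).cellv 1 k)) k =
      h (fc (Setoid.ker ((l.pj.vv u).cellv b k))) (fc (l.V k) ⊔ fc (Setoid.ker ((l.pj.vv P).cellv 1 k))) /
        (S.F k).n := by
    have e2 : (osp l).rt (fun k => Setoid.ker ((oQ l u).cellv b k)) (fun k => Setoid.ker ((oQ l P).cellv 1 k)) k =
        l.sp.rt (fun k => Setoid.ker ((oQ l u).cellv b k))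
          (fun k => Setoid.ker ((oQ l P).cellv 1 k) ⊓ l.V k) k / 1 := chg_rt l.V 1 one_pos _ _ k
    have e3 : l.sp.rt (fun k => Setoid.ker ((oQ l u).cellv b k))
          (fun k => Setoid.ker ((oQ l P).cellv 1 k) ⊓ l.V k) k =
        (l.sp.F k).e (Setoid.ker ((oQ l u).cellv b k)) (Setoid.ker ((oQ l P).cellv 1 k) ⊓ l.V k ⊓ (l.sp.F k).Z) /
          (l.sp.F k).n := rfl
    have e4 : (oQ l u).cellv b k = (l.pj.vv u).cellv b k := by
      funext ω j
      show ⌊(oQ l u).v k ω j / (osp l).dl b k⌋ = ⌊(l.pj.vv u).v k ω j / l.sp.dl b k⌋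
      rw [hdlo]
      rfl
    have e5 : (oQ l P).cellv 1 k = (l.pj.vv P).cellv 1 k := by
      funext ω j
      show ⌊(oQ l P).v k ω j / (osp l).dl 1 k⌋ = ⌊(l.pj.vv P).v k ω j / l.sp.dl 1 k⌋
      rw [hdlo]
      rfl
    rw [e2, div_one, e3, e4, e5, hn, ← fc_inf, h_fc, inf_comm (l.V k)]
  have h3 := hk
  rw [hn, ← div_le_iff₀ hp] at h3
  exact (le_of_eq e1).trans h3

end

end Pool.Agent.Helper80.NSL
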